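import Pool.Agent.H812.SF.Stm3

/-!
# Project SO (helper812), problem MP_83fd13_an: the full symmetry group

`RotN n D` (in `Pool.Agent.H812.SF`, file SF/Stm3.lean) says: for `‖ω‖ = 1`, `ω • D = D` iff `ω ^ n = 1`.
-/

set_option autoImplicit false

namespace Pool.Agent.H812.SO

open Set Pool.Agent.H812.SF

/-- The isometries of the plane which preserve `D` are the rotations about `0` by the multiples of
`2 π / n` and the reflections `z ↦ ω z̄` with `ω ^ n = 1`. -/
def FullSym (n : ℕ) (D : Set ℂ) : Prop :=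
  ∀ σ : ℂ ≃ᵢ ℂ, σ '' D = D ↔
    ∃ ω : ℂ, ω ^ n = 1 ∧ ((∀ z, σ z = ω * z) ∨ ∀ z, σ z = ω * (starRingEnd ℂ) z)

/-- SO-DIH: a bounded set with rotation group of order `n ≥ 2` which is symmetric about the real axis has
no other symmetries than the obvious ones.

Proof.  (⇐) from `RotN` and the conjugation (`conj '' D = D` as `conj` is an involution); `‖ω‖ = 1`.
(⇒) By Mazur-Ulam (`IsometryEquiv.toRealAffineIsometryEquiv`) and `linear_isometry_complex`,
`σ z = a z + b` or `σ z = a z̄ + b` with `‖a‖ = 1`.  Let `ω₀ = exp (2 π i / n) ≠ 1`, `R z = ω₀ z`; `R '' D = D` by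
`RotN`.  In the first case `σ R σ⁻¹ R⁻¹` is the translation by `(1 - ω₀) b`, in the second case `σ R σ⁻¹ R` is the
translation by `(1 - ω̄₀) b`; it preserves the bounded nonempty set `D`, so it is trivial (iterate),
and `b = 0`.  In the first case `a ^ n = 1` by `RotN`; in the second case compose with
`conj`, which preserves `D`, and get `a ^ n = 1` as well. -/
def S_DIH : Prop :=
  ∀ (n : ℕ) (D : Set ℂ), 2 ≤ n → Bornology.IsBounded D → D.Nonempty → RotN n D →
    (∀ z ∈ D, (starRingEnd ℂ) z ∈ D) → FullSym n D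

end Pool.Agent.H812.SO
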