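import Pool.Agent.H812.SF.Fin3
import Pool.Agent.H812.SO.Stm2

/-!
Project SO (helper812), problem MP_83fd13_an: the domain is symmetric about the real axis (otherwise as
`S_DOM2`, `S_NR2` in SF/Q.lean).
-/

set_option autoImplicit false

open Set Filter Topology MeasureTheory

namespace Pool.Agent.H812.SF

open Pool.Agent.N229.SC Pool.Agent.H812.SO

theorem evh_conj {w : ℤ → ℝ} (c : Al w) (t : ℂ) :
    evh c ((starRingEnd ℂ) t) = (starRingEnd ℂ) (evh c t) := by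
  unfold evh
  rw [Complex.conj_tsum]
  refine tsum_congr fun j => ?_
  simp

theorem fF_conj (P : Par) (h : W) (z : ℂ) :
    fF P h ((starRingEnd ℂ) z) = (starRingEnd ℂ) (fF P h z) := by
  unfold fF
  rw [← map_pow, evh_conj]
  simp only [map_mul, map_div₀, Complex.conj_ofReal, ← Complex.exp_conj, Complex.conj_natCast]

theorem om_conj (P : Par) (h : W) : ∀ z ∈ Om (fF P h), (starRingEnd ℂ) z ∈ Om (fF P h) := by
  rintro z ⟨t, ht, rfl⟩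
  refine ⟨(starRingEnd ℂ) t, ?_, fF_conj P h t⟩
  rw [mem_ball_zero_iff] at ht ⊢
  rwa [RCLike.norm_conj]

/-- SO-DOM3: the domain for given parameters. -/
def S_DOM3 : Prop :=
  ∀ P : Par, Good P → (∃ C, ∀ i, |P.a i| ≤ C ∧ |P.b i| ≤ C) → ∃ D : Set ℂ,
    Bornology.IsBounded D ∧ D.Nonempty ∧ RotN P.n D ∧ (∀ z ∈ D, (starRingEnd ℂ) z ∈ D) ∧
    Ctr (100 * Real.sqrt (P.a 0)) P.ρ ((fun z : ℂ => (!₂[z.re, z.im] : E2)) '' D)

theorem proof_DOM3 (hEXI : S_EXI) (hFN1 : S_FN1) (hFN2 : S_FN2) (hFN3 : S_FN3)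
    (hFN4 : S_FN4) (hFN5 : S_FN5) (hCLO : S_CLO) (hCLO2 : S_CLO2) (hINC : S_INC) (hTR1 : S_TR1)
    (hROT : S_ROT) (hPDE : S_PDE) (hINJ : S_INJ) (hTOP : S_TOP) (hLIP : S_LIP) (hNB : S_NB)
    (hWK1 : S_WK1) (hWK2 : S_WK2) (hWK3 : S_WK3) : S_DOM3 := by
  intro P hG hbd
  obtain ⟨X, h, v, y, hX, hX', hX5, hsol, hO, hh⟩ := hEXI P hG
  have hF : Full P X h v y := ⟨hG, hbd, hX, hX', hsol, hO, hh⟩
  obtain ⟨hconf, hnd⟩ := hFN1 P X h v y hF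
  obtain ⟨hQd, hQb⟩ := hFN2 P X h v y hF
  have hStr : Str P.ρ (rF P) (fF P h) (QF P X h v y) :=
    ⟨hconf, hQd, hQb, hFN3 P X h v y hF, hFN4 P X h v y hF, hFN5 P X h v y hF⟩
  obtain ⟨r', c, U, S, hr1, hr2, hCl⟩ := hPDE _ _ _ _ hStr
  obtain ⟨t1, t2, t3, t4, t5, t6⟩ := hTOP _ _ _ hconf
  obtain ⟨w1, w2, w3⟩ := hWK1 _ _ _ _ _ _ _ hconf hr1 hr2 hCl
  -- the size of `h`
  obtain ⟨q, hq⟩ : ∃ q : ℝ, q = Real.sqrt (P.a 0) := ⟨_, rfl⟩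
  have hq0 : 0 < q := hq ▸ Real.sqrt_pos.2 hG.a0
  have hq1 : q ≤ 1 / 10000 := by
    rw [hq, Real.sqrt_le_left (by positivity)]
    exact hG.a0'.trans (by norm_num)
  rw [← hq] at hX5 ⊢
  have hs2 : ‖h‖ ≤ 10 * q := by
    have := hsol.nh
    linarith
  have hclose : ∀ z ∈ Metric.ball (0 : ℂ) (rF P), ‖fF P h z - P.ρ * z‖ ≤ 2 * (10 * q) ∧
      ‖deriv (fF P h) z - P.ρ‖ ≤ 10 * (10 * q) * P.ρ :=
    hCLO P h (10 * q) hG hs2 (by linarith)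
  have hlip := hCLO2 P h (10 * q) hG hs2 (by linarith)
  have hρ0 : 0 < P.ρ := hconf.rho_pos
  -- the inclusions
  have hinc := hINC P.ρ (rF P) (100 * q) (fF P h) hconf (by positivity) (by
    intro z hz
    have h1 := (hclose z (by
      rw [mem_ball_zero_iff, hz]
      exact hconf.r_gt)).1
    have h2 : ‖(P.ρ : ℂ) * z‖ = P.ρ := by
      rw [norm_mul, hz, mul_one, Complex.norm_real, Real.norm_eq_abs, abs_of_pos hρ0]
    have h3 := abs_norm_sub_norm_le (fF P h z) (P.ρ * z)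
    rw [h2] at h3
    linarith)
  have hweak : Weak (Om (fF P h)) 1 c (uF (fF P h) U) (GF (fF P h) S) :=
    ⟨w1, w2, hWK2 _ _ _ _ _ _ _ hconf hr1 hr2 hCl, hWK3 _ _ _ _ _ _ _ hconf hr1 hr2 hCl, w3⟩
  obtain ⟨d1, d2, d3, d4⟩ := hTR1 (Om (fF P h)) 1 c _ _ t1 t2 t3 t4 t6 (by
    intro p hp
    rw [t5] at hp
    obtain ⟨z, hz, rfl⟩ := hp
    exact hLIP _ _ _ hconf z (by simpa using hz)) (hNB _ _ _ hconf hnd) hweak
  have hJJ : (fun z : ℂ => (!₂[z.re, z.im] : E2)) = Pool.Agent.H957.HE.JJ := by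
    funext z
    ext i
    fin_cases i <;> simp [Pool.Agent.H957.HE.JJ]
  refine ⟨Om (fF P h), t2, t3.nonempty, hROT P X h v y hF, om_conj P h, d1, ?_, ?_, d2, ?_, ?_, ?_⟩
  · rw [hJJ]
    exact ⟨c, _, _, hCl.c_ne, Pool.Agent.H957.HE.sol_transfer hweak⟩
  · rw [hJJ]
    exact fun σ => Pool.Agent.H957.HE.pompeiu t1 t2 hCl.c_ne hweak σ
  · refine ⟨rF P, fF P h, hconf.r_gt, hconf.f_diff, (hINJ _ _ _ hconf).2, ?_, ?_, rfl⟩
    · intro z hz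
      obtain ⟨h1, h2⟩ := hclose z hz
      refine ⟨h1.trans (by linarith), h2.trans ?_⟩
      refine mul_le_mul_of_nonneg_right (by linarith) hρ0.le
    · intro z w hz hw
      refine (hlip z w hz hw).trans (le_of_eq ?_)
      ring
  · exact (d4 _).1 hinc.1
  · exact (d4 _).2 hinc.2


/-- SO-NR3: the criterion, with the full symmetry group. -/
def S_NR3 : Prop :=
  ∀ (ρ : ℝ) (n : ℕ), 10 ^ 4 ≤ ρ → 4 / 5 * ρ ≤ n → n ≤ 41 / 50 * ρ → Fb ρ 1 = 0 →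
    0 < -(Fb ρ n / Fb ρ (n + 1)) → -(Fb ρ n / Fb ρ (n + 1)) ≤ 31 / 10 ^ 10 →
    ∃ D : Set ℂ, FullSym n D ∧ Ctr (100 * Real.sqrt (-(Fb ρ n / Fb ρ (n + 1)))) ρ
      ((fun z : ℂ => (!₂[z.re, z.im] : E2)) '' D)

theorem proof_NR3 (hONEN : S_ONEN) (hDOM : S_DOM3) (hDIH : S_DIH) : S_NR3 := by
  intro ρ n h1 h2 h3 h4 h5 h6
  obtain ⟨P, hG, hρ, hn, ha, hbd⟩ := hONEN ρ n h1 h2 h3 h4 h5 h6
  obtain ⟨D, g2, g3, g4, g5, g6⟩ := hDOM P hG hbd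
  rw [hρ, ha] at g6
  rw [hn] at g4
  have hn2 : 2 ≤ n := by
    have h7 : (2 : ℝ) ≤ n := by linarith
    exact_mod_cast h7
  exact ⟨D, hDIH n D hn2 g2 g3 g4 g5, g6⟩

theorem pDOM3 : S_DOM3 := proof_DOM3 pEXI pFN1 pFN2 pFN3 pFN4 pFN5 pCLO pCLO2 pINC pTR1 pROT pPDE
  pINJ pTOP pLIP pNB pWK1 pWK2 pWK3

end Pool.Agent.H812.SF
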