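import Pool.Agent.H812.SO.Ord
import Pool.Agent.H297.SoDIH
import Pool.Agent.H118.SoKAP
import Pool.Agent.H47.SoH
import Pool.Agent.H17.SoEX
import Pool.Agent.H178.SoNX
import Pool.Agent.H977.SoSTL
import Pool.Agent.H686.SoSTU
import Pool.Agent.H263.SoODE
import Pool.Agent.H722.SoDER

/-!
Project SO (helper812), problem MP_83fd13_an: assembly, second part.
-/

set_option autoImplicit false

namespace Pool.Agent.H812.SO

open Pool.Agent.N229.SC Pool.Agent.H812.SF

theorem pSIM : S_SIM := Pool.Agent.H17.SoEX.proof_SIM pN1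
theorem pDER : S_DER := Pool.Agent.H722.SoDER.proof_DER
theorem pODE : S_ODE := Pool.Agent.H263.SoODE.proof_ODE pDER
theorem pSTU : S_STU := Pool.Agent.H686.SoSTU.proof_STU
theorem pSTL : S_STL := Pool.Agent.H977.SoSTL.proof_STL
theorem pNX : S_NX := Pool.Agent.H178.SoNX.proof_NX pDER pODE pSTU pSTL pSIM
theorem pEX : S_EX := Pool.Agent.H17.SoEX.proof_EX pODE pSTU
theorem pKAP : S_KAP := Pool.Agent.H118.SoKAP.proof_KAP pDER pSIM
theorem pDIH : S_DIH := Pool.Agent.H297.SoDIH.proof_DIH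
theorem pNR3 : S_NR3 := proof_NR3 pONEN pDOM3 pDIH
theorem pORD : S_ORD := proof_ORD proof_HX pNX pEX (proof_WALK2 proof_HX) pKAP pNR3

end Pool.Agent.H812.SO
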