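import Pool.Agent.H47.SoH

/-!
Project SO (helper812), problem MP_83fd13_an: `S_H` with explicit constants (the proof is that of
`Pool.Agent.H47.SoH.proof_H`).
-/

set_option autoImplicit false

namespace Pool.Agent.H812.SO

open Set Pool.Agent.N229.SC Pool.Agent.H47.SoH

/-- SO-HX: `S_H` with explicit constants. -/
def S_HX : Prop :=
  (∀ n : ℕ, 100 ≤ n →
    (1231 / 1000 * (n : ℝ) ≤ tt n ∧ tt n ≤ 12312 / 10000 * n) ∧
    (∀ y : ℝ, 0 ≤ y → y ≤ (n : ℝ) / 100 →
      12 * Real.pi + 50 * y / n ≤ 7 * hh n (tt n - y) ∧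
      7 * hh n (tt n - y) ≤ 12 * Real.pi + 130 * y / n) ∧
    (∀ s t : ℝ, 6 / 5 * (n : ℝ) ≤ s → s ≤ t → t ≤ 13 / 10 * n →
      hh n t ≤ hh n s ∧ hh n s ≤ 6)) ∧
  ∀ t : ℝ, 10 ≤ t → Real.pi ≤ hh 1 t ∧ hh 1 t ≤ Real.pi + 2 / t ^ 2

theorem proof_HX : S_HX := by
  refine ⟨?_, ?_⟩
  · intro n hn
    have h1 : (100 : ℝ) ≤ n := by exact_mod_cast hn
    have hn0 : (0 : ℝ) < n := by linarith
    obtain ⟨hT, hnu⟩ := tt_sq (n := n) (by omega)
    obtain ⟨b1, b2⟩ := tt_bd hn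
    refine ⟨⟨b1, b2⟩, ?_, ?_⟩
    · intro y hy hy'
      obtain ⟨τ, hτ⟩ : ∃ τ, τ = tt n / n := ⟨_, rfl⟩
      obtain ⟨v, hv⟩ : ∃ v, v = y / n := ⟨_, rfl⟩
      have t1 : 1231 / 1000 ≤ τ := by rw [hτ, le_div_iff₀ hn0]; exact b1
      have t2 : τ ≤ 12312 / 10000 := by rw [hτ, div_le_iff₀ hn0]; exact b2
      have v1 : 0 ≤ v := by rw [hv]; positivity
      have v2 : v ≤ 1 / 100 := by rw [hv, div_le_iff₀ hn0]; linarith
      have eT : tt n = τ * n := by rw [hτ]; field_simp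
      have ey : y = v * n := by rw [hv]; field_simp
      obtain ⟨g1, g2⟩ := g_bd t1 t2 v1 v2
      have hd : τ - v ≠ 0 := by intro e; linarith
      have eq : 1 - ((n : ℝ) ^ 2 - 1 / 4) / (tt n - y) ^ 2 =
          1 - 95 / 144 * (τ ^ 2 / (τ - v) ^ 2) := by
        rw [hnu, eT, ey]
        have : τ * (n : ℝ) - v * n = (τ - v) * n := by ring
        rw [this]
        field_simp
      have hpos : 0 < 1 - 95 / 144 * (τ ^ 2 / (τ - v) ^ 2) := by linarith
      have hr := Real.sqrt_pos.2 hpos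
      have hr2 := Real.sq_sqrt hpos.le
      have := key t1 t2 v1 v2 hr hr2
      unfold hh
      rw [eq]
      have f1 : 50 * y / n = 50 * v := by rw [hv]; ring
      have f2 : 130 * y / n = 130 * v := by rw [hv]; ring
      rw [f1, f2]
      exact this
    · intro s t hs hst ht
      have hs0 : 0 < s := by linarith
      have ht0 : 0 < t := by linarith
      have hnu0 : 0 ≤ (n : ℝ) ^ 2 - 1 / 4 := by nlinarith
      have q1 : 3025 / 10000 ≤ 1 - ((n : ℝ) ^ 2 - 1 / 4) / s ^ 2 := by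
        have : ((n : ℝ) ^ 2 - 1 / 4) / s ^ 2 ≤ 6975 / 10000 := by
          rw [div_le_iff₀ (by positivity)]
          have h5 : (6 / 5 * (n : ℝ)) ^ 2 ≤ s ^ 2 := by
            apply pow_le_pow_left₀ (by positivity) hs
          nlinarith
        linarith
      have q2 : 1 - ((n : ℝ) ^ 2 - 1 / 4) / s ^ 2 ≤ 1 - ((n : ℝ) ^ 2 - 1 / 4) / t ^ 2 := by
        have : ((n : ℝ) ^ 2 - 1 / 4) / t ^ 2 ≤ ((n : ℝ) ^ 2 - 1 / 4) / s ^ 2 := by
          apply div_le_div_of_nonneg_left hnu0 (by positivity)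
          exact pow_le_pow_left₀ hs0.le hst 2
        linarith
      have r1 : 55 / 100 ≤ Real.sqrt (1 - ((n : ℝ) ^ 2 - 1 / 4) / s ^ 2) := by
        apply Real.le_sqrt_of_sq_le
        norm_num
        norm_num at q1
        linarith
      unfold hh
      constructor
      · apply div_le_div_of_nonneg_left Real.pi_pos.le (by linarith)
        exact Real.sqrt_le_sqrt q2
      · rw [div_le_iff₀ (by linarith)]
        have := Real.pi_lt_d2
        linarith
  · intro t ht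
    have ht0 : 0 < t := by linarith
    obtain ⟨x, hx⟩ : ∃ x, x = 3 / 4 / t ^ 2 := ⟨_, rfl⟩
    have x0 : 0 < x := by rw [hx]; positivity
    have x1 : x ≤ 75 / 10000 := by
      rw [hx, div_le_iff₀ (by positivity)]
      nlinarith
    have e1 : 1 - (((1 : ℕ) : ℝ) ^ 2 - 1 / 4) / t ^ 2 = 1 - x := by
      rw [hx, Nat.cast_one]
      norm_num
    have e2 : 2 / t ^ 2 = 8 / 3 * x := by
      rw [hx]
      ring
    have hpi := Real.pi_gt_three
    have hpi' := Real.pi_lt_d2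
    unfold hh
    rw [e1, e2]
    have r0 : 0 < Real.sqrt (1 - x) := Real.sqrt_pos.2 (by linarith)
    have r1 : Real.sqrt (1 - x) ≤ 1 := Real.sqrt_le_iff.2 ⟨zero_le_one, by linarith⟩
    have r2 : 1 - 6 / 10 * x ≤ Real.sqrt (1 - x) := by
      apply Real.le_sqrt_of_sq_le
      nlinarith
    constructor
    · rw [le_div_iff₀ r0]
      nlinarith
    · rw [div_le_iff₀ r0]
      have h3 : (Real.pi + 8 / 3 * x) * (1 - 6 / 10 * x) ≤
          (Real.pi + 8 / 3 * x) * Real.sqrt (1 - x) :=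
        mul_le_mul_of_nonneg_left r2 (by positivity)
      nlinarith [mul_pos x0 Real.pi_pos]

end Pool.Agent.H812.SO
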