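import Pool.Agent.H812.SO.Fin

/-!
Project SO (helper812), problem MP_83fd13_an: the quantitative theorem (`S_MQ` in SF/Q.lean) with the full
symmetry groups.
-/

set_option autoImplicit false

open Set

namespace Pool.Agent.H812.SO

open Pool.Agent.N229.SC Pool.Agent.H812.SF

/-- SO-MQ3: the quantitative theorem, with the symmetry groups. -/
def S_MQ3 : Prop :=
  ∀ ρ η : ℝ, 10 ^ 30 ≤ ρ → Fb ρ 1 = 0 → 10 ^ 5 / ρ ^ (1 / 4 : ℝ) ≤ η → η ≤ 1 / 200 →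
    ∃ (n : ℕ → ℕ) (D : ℕ → Set ℂ),
      (∀ k : ℕ, (k : ℝ) ≤ η ^ 4 * ρ / 10 ^ 20 → 4 / 5 * ρ ≤ n k ∧ (n k : ℝ) ≤ 41 / 50 * ρ ∧
        FullSym (n k) (D k) ∧ Ctr η ρ ((fun z : ℂ => (!₂[z.re, z.im] : E2)) '' D k)) ∧
      ∀ j k : ℕ, (j : ℝ) ≤ η ^ 4 * ρ / 10 ^ 20 → (k : ℝ) ≤ η ^ 4 * ρ / 10 ^ 20 → j ≠ k →
        n j ≠ n k ∧ ¬ Similar ((fun z : ℂ => (!₂[z.re, z.im] : E2)) '' D j)
          ((fun z : ℂ => (!₂[z.re, z.im] : E2)) '' D k)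

theorem proof_MQ3 (hPARG : S_PARG) (hDOM : S_DOM3) (hNSIM : S_NSIM) (hDIH : S_DIH) : S_MQ3 := by
  intro ρ η hρ hJ hη1 hη2
  have hρ0 : 0 < ρ := lt_of_lt_of_le (by norm_num) hρ
  have hη0 : 0 < η := lt_of_lt_of_le (by positivity) hη1
  obtain ⟨P, hP, hn⟩ := hPARG ρ (η ^ 2 / 30000) hρ hJ (by
    have h1 : (10 ^ 5 / ρ ^ (1 / 4 : ℝ)) ^ 2 ≤ η ^ 2 := pow_le_pow_left₀ (by positivity) hη1 2
    have h2 : (10 ^ 5 / ρ ^ (1 / 4 : ℝ)) ^ 2 = 10 ^ 10 / Real.sqrt ρ := by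
      rw [div_pow, ← Real.rpow_natCast (ρ ^ (1 / 4 : ℝ)) 2, ← Real.rpow_mul hρ0.le,
        Real.sqrt_eq_rpow]
      norm_num
    rw [h2] at h1
    have h3 : 2 * 10 ^ 5 / Real.sqrt ρ ≤ (10 ^ 10 / Real.sqrt ρ) / 30000 := by
      rw [div_div, div_le_div_iff₀ (by positivity) (by positivity)]
      have : 0 < Real.sqrt ρ := Real.sqrt_pos.2 hρ0
      nlinarith
    refine h3.trans ?_
    linarith) (by
    have h1 : η ^ 2 ≤ (1 / 200) ^ 2 := pow_le_pow_left₀ hη0.le hη2 2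
    norm_num at h1 ⊢
    linarith)
  have hcount : ∀ k : ℕ, (k : ℝ) ≤ η ^ 4 * ρ / 10 ^ 20 →
      (k : ℝ) ≤ (η ^ 2 / 30000) ^ 2 * ρ / 10 ^ 11 := by
    intro k hk
    refine hk.trans ?_
    have h1 : (η ^ 2 / 30000) ^ 2 * ρ / 10 ^ 11 = η ^ 4 * ρ / (9 * 10 ^ 19) := by ring
    rw [h1]
    refine div_le_div_of_nonneg_left (by positivity) (by positivity) (by norm_num)
  have hwin : ∀ i : ℕ, (i : ℝ) ≤ η ^ 4 * ρ / 10 ^ 20 →
      4 / 5 * ρ ≤ (P i).n ∧ ((P i).n : ℝ) ≤ 41 / 50 * ρ := by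
    intro i hi
    obtain ⟨hG, hρP, -⟩ := hP i (hcount i hi)
    have h1 := hG.nu1
    have h1' := hG.nu2
    have h3 : (P i).nu * (P i).ρ = (P i).n := by
      unfold Par.nu
      have : (P i).ρ ≠ 0 := by rw [hρP]; exact hρ0.ne'
      field_simp
    rw [hρP] at h3
    constructor
    · nlinarith
    · nlinarith
  have hn2 : ∀ i : ℕ, (i : ℝ) ≤ η ^ 4 * ρ / 10 ^ 20 → 2 ≤ (P i).n := by
    intro i hi
    have h1 := (hwin i hi).1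
    have h4 : (2 : ℝ) ≤ (P i).n := by linarith
    exact_mod_cast h4
  have hex : ∀ k : ℕ, ∃ D : Set ℂ, ((k : ℝ) ≤ η ^ 4 * ρ / 10 ^ 20) →
      Bornology.IsBounded D ∧ D.Nonempty ∧ RotN (P k).n D ∧ FullSym (P k).n D ∧
      Ctr η ρ ((fun z : ℂ => (!₂[z.re, z.im] : E2)) '' D) := by
    intro k
    by_cases hk : (k : ℝ) ≤ η ^ 4 * ρ / 10 ^ 20
    · obtain ⟨hG, hρP, ha, -, hbd⟩ := hP k (hcount k hk)
      obtain ⟨D, h2, h3, h4, h4', h5⟩ := hDOM (P k) hG hbd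
      have hs : 100 * Real.sqrt ((P k).a 0) ≤ η := by
        have : Real.sqrt ((P k).a 0) ≤ η / 100 := by
          rw [Real.sqrt_le_left (by positivity)]
          refine ha.trans (le_of_eq ?_)
          ring
        linarith
      rw [hρP] at h5
      exact ⟨D, fun _ => ⟨h2, h3, h4, hDIH _ D (hn2 k hk) h2 h3 h4 h4', h5.mono hs hρ0.le⟩⟩
    · exact ⟨∅, fun h => absurd h hk⟩
  choose D hD using hex
  refine ⟨fun k => (P k).n, D, fun k hk =>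
    ⟨(hwin k hk).1, (hwin k hk).2, (hD k hk).2.2.2.1, (hD k hk).2.2.2.2⟩, ?_⟩
  have key : ∀ j k : ℕ, (j : ℝ) ≤ η ^ 4 * ρ / 10 ^ 20 → (k : ℝ) ≤ η ^ 4 * ρ / 10 ^ 20 →
      (P j).n ≠ (P k).n →
      ¬ Similar ((fun z : ℂ => (!₂[z.re, z.im] : E2)) '' (D j))
        ((fun z : ℂ => (!₂[z.re, z.im] : E2)) '' (D k)) := by
    intro j k hj hk hjk hsim
    obtain ⟨a1, a2, a3, -⟩ := hD j hj
    obtain ⟨b1, b2, b3, -⟩ := hD k hk
    exact hjk (hNSIM _ _ _ _ a1 b1 a2 (hn2 j hj) (hn2 k hk) a3 b3 hsim)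
  intro j k hj hk hjk
  have h0 : (P j).n ≠ (P k).n := by
    rcases lt_or_gt_of_ne hjk with h | h
    · exact (hn j k h (hcount k hk)).ne
    · exact (hn k j h (hcount j hj)).ne'
  exact ⟨h0, key j k hj hk h0⟩

theorem pMQ3 : S_MQ3 := proof_MQ3 pPARG pDOM3 pNSIM pDIH

end Pool.Agent.H812.SO
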