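import Pool.Agent.H812.SO.Walk2
import Pool.Agent.H812.SO.Dom3

/-!
Project SO (helper812), problem MP_83fd13_an: assembly.
-/

set_option autoImplicit false

open Set

namespace Pool.Agent.H812.SO

open Pool.Agent.N229.SC Pool.Agent.H812.SF

/-- SO-ORD: every large dihedral group is the symmetry group of a counterexample. -/
def S_ORD : Prop :=
  ∀ n : ℕ, 10 ^ 24 ≤ n → ∃ (ρ : ℝ) (D : Set ℂ),
    4 / 5 * ρ ≤ n ∧ (n : ℝ) ≤ 41 / 50 * ρ ∧ Fb ρ 1 = 0 ∧ FullSym n D ∧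
      Ctr (4000 / (n : ℝ) ^ (1 / 4 : ℝ)) ρ ((fun z : ℂ => (!₂[z.re, z.im] : E2)) '' D)

theorem hh_one_le (hH : S_HX) {t : ℝ} (ht : 10 ≤ t) : hh 1 t ≤ 7 / 2 := by
  have h1 := (hH.2 t ht).2
  have h2 : 2 / t ^ 2 ≤ 2 / 100 := by
    apply div_le_div_of_nonneg_left (by norm_num) (by norm_num)
    nlinarith
  have := Real.pi_lt_d2
  linarith

theorem proof_ORD (hH : S_HX) (hNX : S_NX) (hEX : S_EX) (hWALK : S_WALK2) (hKAP : S_KAP)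
    (hNR2 : S_NR3) : S_ORD := by
  obtain ⟨hn1, hH2⟩ := hH
  intro n hn5
  have hnn0 : 10 ^ 8 ≤ n := le_trans (by norm_num) hn5
  have hnn1 : 100 ≤ n := le_trans (by norm_num) hn5
  have hn5' : (10 : ℝ) ^ 24 ≤ n := by exact_mod_cast hn5
  have hsq : (10 : ℝ) ^ 12 ≤ Real.sqrt n := by
    apply Real.le_sqrt_of_sq_le
    have h : ((10 : ℝ) ^ 12) ^ 2 = 10 ^ 24 := by norm_num
    rw [h]
    exact hn5'
  obtain ⟨-, -, h6⟩ := hn1 n hnn1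
  have h1n : 1 ≤ n := le_trans (by norm_num) hn5
  have hA1 : ∀ a ∈ {a | (n : ℝ) ≤ a ∧ Fb a n = 0}, 6 / 5 * (n : ℝ) ≤ a → a ≤ 5 / 4 * n →
      ∃ a' ∈ {a | (n : ℝ) ≤ a ∧ Fb a n = 0}, a < a' ∧ hh n a' ≤ a' - a ∧ a' - a ≤ hh n a := by
    rintro a ⟨ha1, ha2⟩ ha3 ha4
    obtain ⟨b, hb1, hb2, hb3, hb4⟩ := hNX n a h1n ha1 ha2
    exact ⟨b, ⟨by linarith, hb2⟩, hb1, hb3, hb4⟩
  have hA2 : ∀ x : ℝ, 6 / 5 * (n : ℝ) ≤ x → x ≤ 5 / 4 * n →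
      ∃ a ∈ {a | (n : ℝ) ≤ a ∧ Fb a n = 0}, x < a ∧ a ≤ x + 12 := by
    intro x hx1 hx2
    obtain ⟨a, ha1, ha2, ha3⟩ := hEX n x h1n (by linarith)
    have h7 := (h6 x x hx1 le_rfl (by linarith)).2
    exact ⟨a, ⟨by linarith, ha3⟩, ha1, by linarith⟩
  have hB1 : ∀ b ∈ {b | (n : ℝ) ≤ b ∧ Fb b 1 = 0}, (n : ℝ) ≤ b →
      ∃ b' ∈ {b | (n : ℝ) ≤ b ∧ Fb b 1 = 0}, Real.pi ≤ b' - b ∧
        b' - b ≤ Real.pi + 2 / b ^ 2 := by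
    rintro b ⟨hb1, hb2⟩ -
    obtain ⟨c, hc1, hc2, hc3, hc4⟩ := hNX 1 b le_rfl (by push_cast; linarith) hb2
    have h7 := (hH2 c (by linarith)).1
    have h8 := (hH2 b (by linarith)).2
    exact ⟨c, ⟨by linarith, hc2⟩, by linarith, by linarith⟩
  have hB2 : ∀ x : ℝ, (n : ℝ) ≤ x → ∃ b ∈ {b | (n : ℝ) ≤ b ∧ Fb b 1 = 0},
      x < b ∧ b ≤ x + 7 := by
    intro x hx
    obtain ⟨a, ha1, ha2, ha3⟩ := hEX 1 x le_rfl (by push_cast; linarith)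
    have h7 := hh_one_le ⟨hn1, hH2⟩ (t := x) (by linarith)
    exact ⟨a, ⟨by linarith, ha3⟩, ha1, by linarith⟩
  obtain ⟨a, ha, ρ, hρ, hna, h1, h2, h3, h4⟩ := hWALK n hnn0 _ _ hA1 hA2 hB1 hB2
  have hs : ρ = a + (ρ - a) := by ring
  have hsq0 : 0 < Real.sqrt n := by linarith
  have h2' : 800 / Real.sqrt n ≤ 8 / 10 ^ 10 := by
    rw [div_le_div_iff₀ hsq0 (by norm_num)]
    linarith
  obtain ⟨h7, h8⟩ := hKAP n a (ρ - a) h1n hna ha.2 h1 (by linarith)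
  rw [← hs] at h7 h8
  have h9 : -(Fb ρ n / Fb ρ (n + 1)) ≤ 1600 / Real.sqrt n := by
    refine h8.trans ?_
    have h10 : 1600 / Real.sqrt n = 2 * (800 / Real.sqrt n) := by ring
    rw [h10]
    linarith
  obtain ⟨D, hD1, hD2⟩ := hNR2 ρ n (by linarith) h3 h4 hρ.2 h7 (by linarith)
  refine ⟨ρ, D, h3, h4, hρ.2, hD1, hD2.mono ?_ (by linarith)⟩
  have hn0' : (0 : ℝ) < n := by linarith
  have h10 : Real.sqrt (-(Fb ρ n / Fb ρ (n + 1))) ≤ 40 / (n : ℝ) ^ (1 / 4 : ℝ) := by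
    rw [Real.sqrt_le_left (by positivity)]
    refine h9.trans (le_of_eq ?_)
    rw [div_pow, ← Real.rpow_natCast ((n : ℝ) ^ (1 / 4 : ℝ)) 2, ← Real.rpow_mul hn0'.le,
      Real.sqrt_eq_rpow]
    norm_num
  calc 100 * Real.sqrt (-(Fb ρ n / Fb ρ (n + 1))) ≤ 100 * (40 / (n : ℝ) ^ (1 / 4 : ℝ)) := by
        linarith
    _ = _ := by ring

end Pool.Agent.H812.SO
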