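import Pool.Agent.H812.SO.Walk3
import Pool.Agent.H812.SO.Fin

/-!
Project SO (helper812), problem MP_83fd13_an: many discs for a given dihedral group.
-/

set_option autoImplicit false

open Set

namespace Pool.Agent.H812.SO

open Pool.Agent.N229.SC Pool.Agent.H812.SF

/-- SO-ORD3: every large dihedral group is the symmetry group of counterexamples near many discs. -/
def S_ORD3 : Prop :=
  ∀ (n : ℕ) (η : ℝ), 10 ^ 24 ≤ n → 4000 / (n : ℝ) ^ (1 / 4 : ℝ) ≤ η → η ≤ 1 / 200 →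
    ∃ (ρ : ℕ → ℝ) (D : ℕ → Set ℂ),
      (∀ k : ℕ, (k : ℝ) ≤ η ^ 4 * n / 10 ^ 16 → 4 / 5 * ρ k ≤ n ∧ (n : ℝ) ≤ 41 / 50 * ρ k ∧
        Fb (ρ k) 1 = 0 ∧ FullSym n (D k) ∧
          Ctr η (ρ k) ((fun z : ℂ => (!₂[z.re, z.im] : E2)) '' D k)) ∧
      ∀ j k : ℕ, j < k → (k : ℝ) ≤ η ^ 4 * n / 10 ^ 16 → ρ j + 100 ≤ ρ k

theorem proof_ORD3 (hH : S_HX) (hNX : S_NX) (hEX : S_EX) (hKAP : S_KAP) (hNR : S_NR3) :
    S_ORD3 := by
  have hHX := hH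
  obtain ⟨hn1, hH2⟩ := hH
  intro n η hn5 hη1 hη2
  have hnn0 : 10 ^ 8 ≤ n := le_trans (by norm_num) hn5
  have hnn1 : 100 ≤ n := le_trans (by norm_num) hn5
  have hn5' : (10 : ℝ) ^ 24 ≤ n := by exact_mod_cast hn5
  have hn0' : (0 : ℝ) < n := by linarith
  have hη0 : 0 < η := lt_of_lt_of_le (by positivity) hη1
  obtain ⟨⟨hT1, hT2⟩, -, h6⟩ := hn1 n hnn1
  have h1n : 1 ≤ n := le_trans (by norm_num) hn5
  have hA1 : ∀ a ∈ {a | (n : ℝ) ≤ a ∧ Fb a n = 0}, 6 / 5 * (n : ℝ) ≤ a → a ≤ 5 / 4 * n →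
      ∃ a' ∈ {a | (n : ℝ) ≤ a ∧ Fb a n = 0}, a < a' ∧ hh n a' ≤ a' - a ∧ a' - a ≤ hh n a := by
    rintro a ⟨ha1, ha2⟩ ha3 ha4
    obtain ⟨b, hb1, hb2, hb3, hb4⟩ := hNX n a h1n ha1 ha2
    exact ⟨b, ⟨by linarith, hb2⟩, hb1, hb3, hb4⟩
  have hA2 : ∀ x : ℝ, 6 / 5 * (n : ℝ) ≤ x → x ≤ 5 / 4 * n →
      ∃ a ∈ {a | (n : ℝ) ≤ a ∧ Fb a n = 0}, x < a ∧ a ≤ x + 12 := by
    intro x hx1 hx2
    obtain ⟨a, ha1, ha2, ha3⟩ := hEX n x h1n (by linarith)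
    have h7 := (h6 x x hx1 le_rfl (by linarith)).2
    exact ⟨a, ⟨by linarith, ha3⟩, ha1, by linarith⟩
  have hB1 : ∀ b ∈ {b | (n : ℝ) ≤ b ∧ Fb b 1 = 0}, (n : ℝ) ≤ b →
      ∃ b' ∈ {b | (n : ℝ) ≤ b ∧ Fb b 1 = 0}, Real.pi ≤ b' - b ∧
        b' - b ≤ Real.pi + 2 / b ^ 2 := by
    rintro b ⟨hb1, hb2⟩ -
    obtain ⟨c, hc1, hc2, hc3, hc4⟩ := hNX 1 b le_rfl (by push_cast; linarith) hb2
    have h7 := (hH2 c (by linarith)).1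
    have h8 := (hH2 b (by linarith)).2
    exact ⟨c, ⟨by linarith, hc2⟩, by linarith, by linarith⟩
  have hB2 : ∀ x : ℝ, (n : ℝ) ≤ x → ∃ b ∈ {b | (n : ℝ) ≤ b ∧ Fb b 1 = 0},
      x < b ∧ b ≤ x + 7 := by
    intro x hx
    obtain ⟨a, ha1, ha2, ha3⟩ := hEX 1 x le_rfl (by push_cast; linarith)
    have h7 := hh_one_le ⟨hn1, hH2⟩ (t := x) (by linarith)
    exact ⟨a, ⟨by linarith, ha3⟩, ha1, by linarith⟩
  -- the parameter `z`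
  obtain ⟨z, hz⟩ : ∃ z, z = η ^ 2 * n / 5200000 := ⟨_, rfl⟩
  have hη4 : 256 * 10 ^ 12 ≤ η ^ 4 * n := by
    have h1 : (4000 / (n : ℝ) ^ (1 / 4 : ℝ)) ^ 4 ≤ η ^ 4 := pow_le_pow_left₀ (by positivity) hη1 4
    have h2 : (4000 / (n : ℝ) ^ (1 / 4 : ℝ)) ^ 4 = 4000 ^ 4 / n := by
      rw [div_pow, ← Real.rpow_natCast ((n : ℝ) ^ (1 / 4 : ℝ)) 4, ← Real.rpow_mul hn0'.le]
      norm_num
    rw [h2, div_le_iff₀ hn0'] at h1
    norm_num at h1 ⊢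
    linarith
  have hη22 : η ^ 2 ≤ 1 / 40000 := by
    have h1 : η ^ 2 ≤ (1 / 200) ^ 2 := pow_le_pow_left₀ hη0.le hη2 2
    norm_num at h1 ⊢
    linarith
  have hz0 : 0 < z := by rw [hz]; positivity
  have hzz : z * z = η ^ 4 * n * n / (5200000 * 5200000) := by rw [hz]; ring
  have hz2 : z ≤ (n : ℝ) / 200 := by
    rw [hz, div_le_div_iff₀ (by norm_num) (by norm_num)]
    nlinarith
  have hz1 : 1 ≤ z := by
    by_contra hcon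
    have h1 : z * z < 1 := by nlinarith
    rw [hzz, div_lt_one (by norm_num)] at h1
    nlinarith
  have hnz : 200 ≤ (n : ℝ) / z := by rw [le_div_iff₀ hz0]; linarith
  have hκ : 260 * z / n = η ^ 2 / 20000 := by rw [hz]; field_simp; norm_num
  -- the intervals
  have hroom : ∀ k : ℕ, (k : ℝ) ≤ η ^ 4 * n / 10 ^ 16 → ((k : ℝ) + 1) * (8 * (n / z)) ≤ z := by
    intro k hk
    have h1 : ((k : ℝ) + 1) * (8 * (n / z)) = ((k : ℝ) + 1) * 8 * n / z := by ring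
    rw [h1, div_le_iff₀ hz0, hzz]
    have h2 : ((k : ℝ) + 1) * 8 * (5200000 * 5200000) ≤ η ^ 4 * n := by
      have h3 : ((k : ℝ) + 1) ≤ η ^ 4 * n / 10 ^ 16 + 1 := by linarith
      nlinarith
    rw [le_div_iff₀ (by norm_num)]
    nlinarith
  have hex : ∀ k : ℕ, ∃ (ρ : ℝ) (D : Set ℂ), (k : ℝ) ≤ η ^ 4 * n / 10 ^ 16 →
      tt n - 2 * z + k * (8 * (n / z)) ≤ ρ ∧
      ρ ≤ tt n - 2 * z + k * (8 * (n / z)) + 7 * (n / z) + 1 ∧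
      4 / 5 * ρ ≤ n ∧ (n : ℝ) ≤ 41 / 50 * ρ ∧
        Fb ρ 1 = 0 ∧ FullSym n D ∧ Ctr η ρ ((fun z : ℂ => (!₂[z.re, z.im] : E2)) '' D) := by
    intro k
    by_cases hk : (k : ℝ) ≤ η ^ 4 * n / 10 ^ 16
    swap
    · exact ⟨0, ∅, fun h => absurd h hk⟩
    have hk0 : (0 : ℝ) ≤ k := Nat.cast_nonneg k
    have hkz : 0 ≤ (k : ℝ) * (8 * (n / z)) := by positivity
    have hr := hroom k hk
    obtain ⟨a, ha, ρ, hρ, e1, e2, e3, e4, e5, e6⟩ := walk3 hHX n hnn0 z hz1 hz2 _ _ hA1 hA2 hB1 hB2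
      (tt n - 2 * z + k * (8 * (n / z))) (by linarith) (by linarith)
    rw [hκ] at e4
    have hs : ρ = a + (ρ - a) := by ring
    obtain ⟨h7, h8⟩ := hKAP n a (ρ - a) h1n ha.1 ha.2 e3 (by linarith)
    rw [← hs] at h7 h8
    have h9 : -(Fb ρ n / Fb ρ (n + 1)) ≤ η ^ 2 / 10000 := by linarith
    obtain ⟨D, hD1, hD2⟩ := hNR ρ n (by linarith) e5 e6 hρ.2 h7 (by linarith)
    refine ⟨ρ, D, fun _ => ⟨by linarith, by linarith, e5, e6, hρ.2, hD1, hD2.mono ?_ (by linarith)⟩⟩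
    have h10 : Real.sqrt (-(Fb ρ n / Fb ρ (n + 1))) ≤ η / 100 := by
      rw [Real.sqrt_le_left (by positivity)]
      refine h9.trans (le_of_eq ?_)
      ring
    linarith
  choose ρ D hD using hex
  refine ⟨ρ, D, fun k hk => (hD k hk).2.2, ?_⟩
  intro j k hjk hk
  have hjk' : (j : ℝ) + 1 ≤ k := by exact_mod_cast hjk
  have h1 := (hD j (by linarith)).2.1
  have h2 := (hD k hk).1
  have h3 : ((j : ℝ) + 1) * (8 * (n / z)) ≤ k * (8 * (n / z)) :=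
    mul_le_mul_of_nonneg_right hjk' (by positivity)
  linarith

theorem pORD3 : S_ORD3 := proof_ORD3 proof_HX pNX pEX pKAP pNR3

end Pool.Agent.H812.SO
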