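import Pool.Graph.R_pool_sql_team_seeded_63374d34.N229.SC.Stm

/-!
# Project SO (helper812), problem MP_83fd13_an (hard): every large integer is the order of the rotation
# group of a counterexample to Schiffer's conjecture

`Fb ρ m` is `J_m(ρ)`.  The criterion of the file `Results/MP_83fd13_an/ResonanceCriterion.lean` needs, for
given `n`, a zero `ρ` of `J_1` with `4/5 ρ ≤ n ≤ 41/50 ρ` and `0 < -J_n(ρ)/J_(n+1)(ρ)` small.  We find a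
zero `a` of `J_n` and a zero `ρ` of `J_1` with `0 < ρ - a ≤ ε` for all large `n`: near `t = tt n` seven
spacings of the zeros of `J_n` are about `12 π`, twelve spacings of the zeros of `J_1`.
-/

set_option autoImplicit false

namespace Pool.Agent.H812.SO

open Set Pool.Agent.N229.SC

/-- the Sturm spacing `π / √(1 - (n² - 1/4)/t²)` -/
noncomputable def hh (n : ℕ) (t : ℝ) : ℝ :=
  Real.pi / Real.sqrt (1 - ((n : ℝ) ^ 2 - 1 / 4) / t ^ 2)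

/-- the point where `7 hh n t = 12 π` -/
noncomputable def tt (n : ℕ) : ℝ := 12 * Real.sqrt ((n : ℝ) ^ 2 - 1 / 4) / Real.sqrt 95

/-- the derivative of `√t J_n(t)` -/
noncomputable def ww (n : ℕ) (t : ℝ) : ℝ :=
  Fb t n / (2 * Real.sqrt t) + Real.sqrt t * (n / t * Fb t n - Fb t (n + 1))

/-- SO-DER: derivatives of the Bessel functions.

Proof: `J_m' = (m/x) J_m - J_(m+1)` and `J_(m+1)' = J_m - ((m+1)/x) J_(m+1)` from the power series.  The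
file `Pool/Agent/H264/SfJ1Z.lean` (on main) has the case `m = 0` (`J0_deriv`, `J1_deriv`, by
`hasDerivAt_tsum_of_isPreconnected`); the same proof works for all `m`. -/
def S_DER : Prop :=
  ∀ (m : ℕ) (x : ℝ), 0 < x →
    HasDerivAt (fun t => Fb t m) (m / x * Fb x m - Fb x (m + 1)) x ∧
    HasDerivAt (fun t => Fb t (m + 1)) (Fb x m - (m + 1) / x * Fb x (m + 1)) x

/-- SO-ODE: the equation of `w(t) = √t J_n(t)`: `w'' = -(1 - (n² - 1/4)/t²) w`.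
Direct computation from `S_DER`. -/
def S_ODE : Prop :=
  ∀ (n : ℕ) (x : ℝ), 0 < x →
    HasDerivAt (fun t => Real.sqrt t * Fb t n) (ww n x) x ∧
    HasDerivAt (ww n) (-(1 - ((n : ℝ) ^ 2 - 1 / 4) / x ^ 2) * (Real.sqrt x * Fb x n)) x

/-- SO-STU: Sturm comparison, upper bound for the distance to the next zero.

Proof: otherwise `w` has constant sign on `(a, e)`, `e = a + π/ω`; replace `w` by `-w` to have `w > 0`
there, so `w a, w e ≥ 0`.  Put `v t = sin (ω (t - a))`, `Φ = w1 v - w v'`.  Then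
`Φ' = -(q - ω²) w v < 0` on `(a, e)`, but `Φ(a) = -ω w(a) ≤ 0 ≤ ω w(e) = Φ(e)`. -/
def S_STU : Prop :=
  ∀ (w w1 q : ℝ → ℝ) (a ω : ℝ), 0 < ω →
    (∀ t ∈ Icc a (a + Real.pi / ω), HasDerivAt w (w1 t) t ∧ HasDerivAt w1 (-(q t) * w t) t ∧
      ω ^ 2 < q t) →
    ∃ t ∈ Ioo a (a + Real.pi / ω), w t = 0

/-- SO-STL: Sturm comparison, lower bound for the distance of two consecutive zeros.

Proof: WLOG `w > 0` on `(a, b)`.  Suppose `b - a ≤ π/Ω`.  Put `v t = sin (Ω (t - a)) ≥ 0` on `[a, b]`,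
`> 0` on `(a, b)`, `Φ = w1 v - w v'`.  Then `Φ' = (Ω² - q) w v > 0` on `(a, b)`, `Φ(a) = 0`, but
`Φ(b) = w1(b) v(b) ≤ 0` since `w1(b) ≤ 0` (as `w > 0 = w(b)` to the left of `b`). -/
def S_STL : Prop :=
  ∀ (w w1 q : ℝ → ℝ) (a b Ω : ℝ), 0 < Ω → a < b →
    (∀ t ∈ Icc a b, HasDerivAt w (w1 t) t ∧ HasDerivAt w1 (-(q t) * w t) t ∧ q t < Ω ^ 2) →
    w a = 0 → w b = 0 → (∀ t ∈ Ioo a b, w t ≠ 0) → Real.pi / Ω < b - a

/-- SO-SIM: the zeros are simple.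
Proof from `S_N1`: two consecutive `Fb x m = 0` give `Fb x m = 0` for all larger `m` by the recurrence,
against `0 < Fb x m` for `m ≥ x`. -/
def S_SIM : Prop := ∀ (n : ℕ) (x : ℝ), 0 < x → Fb x n = 0 → Fb x (n + 1) ≠ 0

/-- SO-NX: the next zero.

Proof from `S_DER`, `S_ODE`, `S_STU`, `S_STL`, `S_SIM`: let `w t = √t J_n(t)`, `q t = 1 - (n² - 1/4)/t²`, increasing
and positive for `t ≥ a ≥ n`.  `J_n'(a) = -J_(n+1)(a) ≠ 0`, so `J_n ≠ 0` on `(a, a + δ]`.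
By `S_STU` (any `ω < √(q a)`, `ω > 0`) there is a zero in `(a, a + π/ω)`, hence a least zero `b > a` (compactness of the
zeros in `[a + δ, a + π/ω]`).  As this holds for all `ω < √(q a)` (strict inequality `ω² < q t` on
`[a, ∞)`), `b - a ≤ π/√(q a)`.  By `S_STL` with any `Ω > √(q b)`, `π/Ω < b - a`, so
`π/√(q b) ≤ b - a`. -/
def S_NX : Prop :=
  ∀ (n : ℕ) (a : ℝ), 1 ≤ n → (n : ℝ) ≤ a → Fb a n = 0 →
    ∃ b, a < b ∧ Fb b n = 0 ∧ hh n b ≤ b - a ∧ b - a ≤ hh n a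

/-- SO-EX: existence of zeros.
Proof: `S_STU` (with `S_ODE`) and `ω = √(q x) / 2`, where `q x = 1 - (n² - 1/4)/x² > 0`. -/
def S_EX : Prop :=
  ∀ (n : ℕ) (x : ℝ), 1 ≤ n → (n : ℝ) ≤ x → ∃ a, x < a ∧ a ≤ x + 2 * hh n x ∧ Fb a n = 0

/-- SO-H: the spacing function.

Proof: put `ν = n² - 1/4`, `q t = 1 - ν/t²`; `q (tt n) = 1 - 95/144 = 49/144`, so `7 hh n (tt n) = 12 π`;
`12/√95 = 1.23117...`.  For `u = y / tt n ≤ 0.0082`: `q(tt n) - q(tt n - y) = (95/144) ((1-u)^(-2) - 1)` lies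
between `(95/144) 2 u` and `(95/144) 2.03 u`, and `(1 - s)^(-1/2)` lies between `1 + s/2` and `1 + 0.52 s` for
`0 ≤ s ≤ 0.035`; so `7 hh n (tt n - y) = 12 π (1 - s)^(-1/2)`, `s = (144/49)(95/144)((1-u)^(-2) - 1)`, lies between
`12 π + 73 u` and `12 π + 78 u`. (Better avoid square roots: compare squares.) -/
def S_H : Prop :=
  (∃ n1 : ℕ, ∀ n : ℕ, n1 ≤ n →
    (1231 / 1000 * (n : ℝ) ≤ tt n ∧ tt n ≤ 12312 / 10000 * n) ∧
    (∀ y : ℝ, 0 ≤ y → y ≤ (n : ℝ) / 100 →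
      12 * Real.pi + 50 * y / n ≤ 7 * hh n (tt n - y) ∧
      7 * hh n (tt n - y) ≤ 12 * Real.pi + 130 * y / n) ∧
    (∀ s t : ℝ, 6 / 5 * (n : ℝ) ≤ s → s ≤ t → t ≤ 13 / 10 * n →
      hh n t ≤ hh n s ∧ hh n s ≤ 6)) ∧
  ∀ t : ℝ, 10 ≤ t → Real.pi ≤ hh 1 t ∧ hh 1 t ≤ Real.pi + 2 / t ^ 2

/-- SO-WALK: seven steps of `A` against twelve steps of `B`.

Proof (`S_H`).  Let `Z = 6 √n`, `n` large.  Take `α_0 ∈ A` with `tt n - Z < α_0 ≤ tt n - Z + 12` and let `α_(i+1)` be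
reached from `α_i` by seven steps of `hA`; `β_0 ∈ B` with `α_0 < β_0 ≤ α_0 + 7`, `β_(i+1)` twelve
steps of `hB` after `β_i`.  As long as `α_(i+1) ≤ tt n - Z/2`, monotonicity of `hh n` gives
`7 hh n (α_(i+1)) ≤ α_(i+1) - α_i ≤ 7 hh n (α_i) ≤ 42`, so by `S_H`
`12 π + 25 Z/n ≤ α_(i+1) - α_i ≤ 12 π + 130 Z/n`, and `12 π ≤ β_(i+1) - β_i ≤ 12 π + 24/n²`.  So
`G_i = β_i - α_i` decreases in each step by at least `24 Z/n` and at most `130 Z/n = 780/√n ≤ ε`.  There are at least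
`Z/100` such steps, with total decrease `≥ 24 Z²/(100 n) = 8.64 > 7 ≥ G_0`.  Let `i` be the last index with
`G_i > 0`: `0 < G_i ≤ ε`.  Take `a = α_i`, `ρ = β_i`. -/
def S_WALK : Prop :=
  ∀ ε : ℝ, 0 < ε → ∃ n0 : ℕ, ∀ n : ℕ, n0 ≤ n → ∀ A B : Set ℝ,
    (∀ a ∈ A, 6 / 5 * (n : ℝ) ≤ a → a ≤ 5 / 4 * n →
      ∃ a' ∈ A, a < a' ∧ hh n a' ≤ a' - a ∧ a' - a ≤ hh n a) →
    (∀ x : ℝ, 6 / 5 * (n : ℝ) ≤ x → x ≤ 5 / 4 * n → ∃ a ∈ A, x < a ∧ a ≤ x + 12) →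
    (∀ b ∈ B, (n : ℝ) ≤ b → ∃ b' ∈ B, Real.pi ≤ b' - b ∧ b' - b ≤ Real.pi + 2 / b ^ 2) →
    (∀ x : ℝ, (n : ℝ) ≤ x → ∃ b ∈ B, x < b ∧ b ≤ x + 7) →
    ∃ a ∈ A, ∃ ρ ∈ B, (n : ℝ) ≤ a ∧ 0 < ρ - a ∧ ρ - a ≤ ε ∧ 4 / 5 * ρ ≤ n ∧ (n : ℝ) ≤ 41 / 50 * ρ

/-- SO-KAP: the ratio just after a zero of `J_n`.

Proof from `S_DER`, `S_SIM`: let `u = -J_n(a + t)/J_(n+1)(a)`, `v = J_(n+1)(a + t)/J_(n+1)(a)`, so `u(0) = 0`,
`v(0) = 1`, `u' = (n/x) u + v`, `v' = -u - ((n+1)/x) v`, `x = a + t`, with `n/x ≤ 1`, `(n+1)/x ≤ 2`.  On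
`[0, 1/100]` one gets `|u|, |v| ≤ 2` (for instance by continuity/Gronwall), then `|v - 1| ≤ 6/100`, then
`t/2 ≤ u ≤ 3 t / 2`, so `0 < u/v ≤ 2 t`. -/
def S_KAP : Prop :=
  ∀ (n : ℕ) (a s : ℝ), 1 ≤ n → (n : ℝ) ≤ a → Fb a n = 0 → 0 < s → s ≤ 1 / 100 →
    0 < -(Fb (a + s) n / Fb (a + s) (n + 1)) ∧ -(Fb (a + s) n / Fb (a + s) (n + 1)) ≤ 2 * s

end Pool.Agent.H812.SO
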