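import Pool.Agent.H812.SO.Hx

/-!
Project SO (helper812), problem MP_83fd13_an: the walk, with a rate.
-/

set_option autoImplicit false

open Set

namespace Pool.Agent.H812.SO

open Pool.Agent.N229.SC

/-- SO-WALK2: `S_WALK` with a rate. -/
def S_WALK2 : Prop :=
  ∀ n : ℕ, 10 ^ 8 ≤ n → ∀ A B : Set ℝ,
    (∀ a ∈ A, 6 / 5 * (n : ℝ) ≤ a → a ≤ 5 / 4 * n →
      ∃ a' ∈ A, a < a' ∧ hh n a' ≤ a' - a ∧ a' - a ≤ hh n a) →
    (∀ x : ℝ, 6 / 5 * (n : ℝ) ≤ x → x ≤ 5 / 4 * n → ∃ a ∈ A, x < a ∧ a ≤ x + 12) →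
    (∀ b ∈ B, (n : ℝ) ≤ b → ∃ b' ∈ B, Real.pi ≤ b' - b ∧ b' - b ≤ Real.pi + 2 / b ^ 2) →
    (∀ x : ℝ, (n : ℝ) ≤ x → ∃ b ∈ B, x < b ∧ b ≤ x + 7) →
    ∃ a ∈ A, ∃ ρ ∈ B, (n : ℝ) ≤ a ∧ 0 < ρ - a ∧ ρ - a ≤ 800 / Real.sqrt n ∧
      4 / 5 * ρ ≤ n ∧ (n : ℝ) ≤ 41 / 50 * ρ

/-- several steps of `A` -/
theorem steps_A {n : ℕ} {A : Set ℝ} (hn : 1000 ≤ (n : ℝ))
    (hc : ∀ s t : ℝ, 6 / 5 * (n : ℝ) ≤ s → s ≤ t → t ≤ 13 / 10 * n → hh n t ≤ hh n s ∧ hh n s ≤ 6)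
    (hA : ∀ a ∈ A, 6 / 5 * (n : ℝ) ≤ a → a ≤ 5 / 4 * n →
      ∃ a' ∈ A, a < a' ∧ hh n a' ≤ a' - a ∧ a' - a ≤ hh n a)
    {a : ℝ} (ha : a ∈ A) (h1 : 6 / 5 * (n : ℝ) ≤ a) (h2 : a ≤ 5 / 4 * n - 42) :
    ∀ k : ℕ, k ≤ 7 → ∃ a' ∈ A, a ≤ a' ∧ a' ≤ a + 6 * k ∧ k * hh n a' ≤ a' - a ∧
      a' - a ≤ k * hh n a := by
  intro k
  induction k with
  | zero => intro _; exact ⟨a, ha, le_rfl, by simp, by simp, by simp⟩
  | succ k ih =>
    intro hk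
    obtain ⟨a1, g1, g2, g3, g4, g5⟩ := ih (by omega)
    have hk' : (k : ℝ) ≤ 6 := by exact_mod_cast (by omega : k ≤ 6)
    have hk0 : (0 : ℝ) ≤ k := Nat.cast_nonneg k
    obtain ⟨a2, e1, e2, e3, e4⟩ := hA a1 g1 (by linarith) (by linarith)
    have f1 := hc a a1 h1 g2 (by linarith)
    have f3 := hc a1 a1 (by linarith) le_rfl (by linarith)
    have f2 := hc a1 a2 (by linarith) e2.le (by linarith)
    refine ⟨a2, e1, by linarith, ?_, ?_, ?_⟩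
    · push_cast; linarith
    · push_cast
      have : (k : ℝ) * hh n a2 ≤ k * hh n a1 := mul_le_mul_of_nonneg_left f2.1 hk0
      linarith
    · push_cast
      linarith

/-- several steps of `B` -/
theorem steps_B {n : ℕ} {B : Set ℝ} (hn : 1000 ≤ (n : ℝ))
    (hB : ∀ b ∈ B, (n : ℝ) ≤ b → ∃ b' ∈ B, Real.pi ≤ b' - b ∧ b' - b ≤ Real.pi + 2 / b ^ 2)
    {b : ℝ} (hb : b ∈ B) (h1 : (n : ℝ) ≤ b) :
    ∀ k : ℕ, ∃ b' ∈ B, b ≤ b' ∧ k * Real.pi ≤ b' - b ∧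
      b' - b ≤ k * (Real.pi + 2 / (n : ℝ) ^ 2) := by
  intro k
  induction k with
  | zero => exact ⟨b, hb, le_rfl, by simp, by simp⟩
  | succ k ih =>
    obtain ⟨b1, g1, g2, g3, g4⟩ := ih
    obtain ⟨b2, e1, e2, e3⟩ := hB b1 g1 (by linarith)
    have hp := Real.pi_pos
    have f1 : 2 / b1 ^ 2 ≤ 2 / (n : ℝ) ^ 2 := by
      apply div_le_div_of_nonneg_left (by norm_num) (by positivity)
      apply pow_le_pow_left₀ (by linarith)
      linarith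
    refine ⟨b2, e1, by linarith, ?_, ?_⟩
    · push_cast; linarith
    · push_cast; linarith

theorem proof_WALK2 (hH : S_HX) : S_WALK2 := by
  obtain ⟨hn1, -⟩ := hH
  intro n hn8 A B hA hA0 hB hB0
  have hnn1 : 100 ≤ n := le_trans (by norm_num) hn8
  have hN8 : (10 : ℝ) ^ 8 ≤ n := by exact_mod_cast hn8
  obtain ⟨⟨hT1, hT2⟩, hy, hc⟩ := hn1 n hnn1
  obtain ⟨r, hr⟩ : ∃ r, r = Real.sqrt n := ⟨_, rfl⟩
  obtain ⟨N, hN⟩ : ∃ N : ℝ, N = n := ⟨_, rfl⟩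
  obtain ⟨T, hT⟩ : ∃ T, T = tt n := ⟨_, rfl⟩
  have hr2 : r * r = N := by rw [hr, hN]; exact Real.mul_self_sqrt (Nat.cast_nonneg n)
  have hr4 : 10 ^ 4 ≤ r := by
    rw [hr]
    apply Real.le_sqrt_of_sq_le
    have h : ((10 : ℝ) ^ 4) ^ 2 = 10 ^ 8 := by norm_num
    rw [h]
    exact hN8
  rw [← hT] at hT1 hT2 hy
  rw [← hN] at hT1 hT2 hy hc hA hA0 hB hB0 hN8
  rw [← hN]
  rw [← hN] at hr
  have hr0 : 0 < r := by linarith
  have hN0 : 0 < N := by linarith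
  have hNr : 10 ^ 4 * r ≤ N := by rw [← hr2]; exact mul_le_mul_of_nonneg_right hr4 hr0.le
  have hn1000 : 1000 ≤ (n : ℝ) := by rw [← hN]; linarith
  -- one step
  have hstep : ∀ a ∈ A, ∀ b ∈ B, T - 6 * r ≤ a → a ≤ T - 3 * r - 42 → a < b →
      ∃ a' ∈ A, ∃ b' ∈ B, a ≤ a' ∧ a' ≤ a + 42 ∧ 144 / r ≤ (b - a) - (b' - a') ∧
        (b - a) - (b' - a') ≤ 780 / r := by
    intro a ha b hb h1 h2 h3
    obtain ⟨a', e1, e2, e3, e4, e5⟩ := steps_A hn1000 (by rw [← hN]; exact hc)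
      (by rw [← hN]; exact hA) ha (by rw [← hN]; linarith) (by rw [← hN]; linarith) 7 le_rfl
    obtain ⟨b', g1, g2, g3, g4⟩ := steps_B hn1000 (by rw [← hN]; exact hB) hb
      (by rw [← hN]; linarith) 12
    rw [← hN] at g4
    push_cast at e3 e4 e5 g3 g4
    have k1 := (hy (T - a) (by linarith) (by linarith)).2
    have k2 := (hy (T - a') (by linarith) (by linarith)).1
    rw [sub_sub_cancel] at k1 k2
    have k3 : 130 * (T - a) / N ≤ 780 / r := by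
      rw [div_le_div_iff₀ hN0 hr0, ← hr2]
      nlinarith
    have k4 : 150 / r ≤ 50 * (T - a') / N := by
      rw [div_le_div_iff₀ hr0 hN0, ← hr2]
      nlinarith
    have k5 : 12 * (2 / N ^ 2) ≤ 6 / r := by
      rw [← hr2, mul_div_assoc', div_le_div_iff₀ (by positivity) hr0]
      nlinarith [pow_pos hr0 3, pow_le_pow_left₀ (by norm_num) hr4 3]
    have k6 : 150 / r = 144 / r + 6 / r := by ring
    exact ⟨a', e1, b', g1, e2, by linarith, by linarith, by linarith⟩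
  -- start
  obtain ⟨a0, ha0, ha1, ha2⟩ := hA0 (T - 6 * r) (by linarith) (by linarith)
  obtain ⟨b0, hb0, hb1, hb2⟩ := hB0 a0 (by linarith)
  by_contra hcon
  have hgood : ∀ a ∈ A, ∀ b ∈ B, T - 6 * r ≤ a → a ≤ T - 3 * r → 0 < b - a → 780 / r < b - a := by
    intro a ha b hb h1 h2 h3
    by_contra h4
    rw [not_lt] at h4
    apply hcon
    have h5 : 780 / r ≤ 1 := by
      rw [div_le_one hr0]; linarith
    have h6 : 780 / r ≤ 800 / Real.sqrt N := by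
      rw [← hr]
      exact div_le_div_of_nonneg_right (by norm_num) hr0.le
    exact ⟨a, ha, b, hb, by linarith, h3, h4.trans h6, by linarith, by linarith⟩
  have hind : ∀ i : ℕ, 42 * ((i : ℝ) + 1) + 12 ≤ 3 * r → ∃ a ∈ A, ∃ b ∈ B, T - 6 * r ≤ a ∧
      a ≤ T - 6 * r + 12 + 42 * i ∧ 0 < b - a ∧ b - a ≤ 7 - 144 / r * i := by
    intro i
    induction i with
    | zero => intro _; exact ⟨a0, ha0, b0, hb0, ha1.le, by simpa using ha2, by linarith, by simp; linarith⟩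
    | succ i ih =>
      intro hi
      push_cast at hi
      obtain ⟨a, ha, b, hb, g1, g2, g3, g4⟩ := ih (by linarith)
      obtain ⟨a', ha', b', hb', e1, e2, e3, e4⟩ := hstep a ha b hb g1 (by linarith) (by linarith)
      have h5 := hgood a ha b hb g1 (by linarith) g3
      refine ⟨a', ha', b', hb', by linarith, by push_cast; linarith, by linarith, ?_⟩
      push_cast
      linarith
  have hI : (⌈r / 20⌉₊ : ℝ) < r / 20 + 1 := Nat.ceil_lt_add_one (by positivity)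
  have hI2 : r / 20 ≤ (⌈r / 20⌉₊ : ℝ) := Nat.le_ceil _
  obtain ⟨a, ha, b, hb, g1, g2, g3, g4⟩ := hind ⌈r / 20⌉₊ (by linarith)
  have h7 : 144 / r * (r / 20) ≤ 144 / r * (⌈r / 20⌉₊ : ℝ) :=
    mul_le_mul_of_nonneg_left hI2 (by positivity)
  have h8 : 144 / r * (r / 20) = 36 / 5 := by
    field_simp
    norm_num
  linarith

end Pool.Agent.H812.SO
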