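import Pool.Agent.H812.SO.Walk2

/-!
Project SO (helper812), problem MP_83fd13_an: the walk in a window `[T - 2 z, T - z]`.
-/

set_option autoImplicit false

open Set

namespace Pool.Agent.H812.SO

open Pool.Agent.N229.SC

/-- SO-WALK3: a near coincidence in every interval of length `7 n / z` in `[T - 2 z, T - z]`. -/
theorem walk3 (hH : S_HX) (n : ℕ) (hn8 : 10 ^ 8 ≤ n) (z : ℝ) (hz1 : 1 ≤ z) (hz2 : z ≤ (n : ℝ) / 200)
    (A B : Set ℝ)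
    (hA : ∀ a ∈ A, 6 / 5 * (n : ℝ) ≤ a → a ≤ 5 / 4 * n →
      ∃ a' ∈ A, a < a' ∧ hh n a' ≤ a' - a ∧ a' - a ≤ hh n a)
    (hA0 : ∀ x : ℝ, 6 / 5 * (n : ℝ) ≤ x → x ≤ 5 / 4 * n → ∃ a ∈ A, x < a ∧ a ≤ x + 12)
    (hB : ∀ b ∈ B, (n : ℝ) ≤ b → ∃ b' ∈ B, Real.pi ≤ b' - b ∧ b' - b ≤ Real.pi + 2 / b ^ 2)
    (hB0 : ∀ x : ℝ, (n : ℝ) ≤ x → ∃ b ∈ B, x < b ∧ b ≤ x + 7)
    (x : ℝ) (hx1 : tt n - 2 * z ≤ x) (hx2 : x + 7 * (n / z) ≤ tt n - z) :
    ∃ a ∈ A, ∃ ρ ∈ B, x ≤ a ∧ a ≤ x + 7 * (n / z) ∧ 0 < ρ - a ∧ ρ - a ≤ 260 * z / n ∧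
      4 / 5 * ρ ≤ n ∧ (n : ℝ) ≤ 41 / 50 * ρ := by
  obtain ⟨hn1, -⟩ := hH
  have hnn1 : 100 ≤ n := le_trans (by norm_num) hn8
  have hN8 : (10 : ℝ) ^ 8 ≤ n := by exact_mod_cast hn8
  obtain ⟨⟨hT1, hT2⟩, hy, hc⟩ := hn1 n hnn1
  obtain ⟨N, hN⟩ : ∃ N : ℝ, N = n := ⟨_, rfl⟩
  obtain ⟨T, hT⟩ : ∃ T, T = tt n := ⟨_, rfl⟩
  rw [← hT] at hT1 hT2 hy hx1 hx2
  rw [← hN] at hT1 hT2 hy hc hA hA0 hB hB0 hN8 hz2 hx2
  rw [← hN]
  have hN0 : 0 < N := by linarith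
  have hz0 : 0 < z := by linarith
  have hn1000 : 1000 ≤ (n : ℝ) := by rw [← hN]; linarith
  have hNz : 200 ≤ N / z := by rw [le_div_iff₀ hz0]; linarith
  -- one step
  have hstep : ∀ a ∈ A, ∀ b ∈ B, T - 2 * z ≤ a → a ≤ T - z - 42 → a < b →
      ∃ a' ∈ A, ∃ b' ∈ B, a ≤ a' ∧ a' ≤ a + 42 ∧ 49 * z / N ≤ (b - a) - (b' - a') ∧
        (b - a) - (b' - a') ≤ 260 * z / N := by
    intro a ha b hb h1 h2 h3
    obtain ⟨a', e1, e2, e3, e4, e5⟩ := steps_A hn1000 (by rw [← hN]; exact hc)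
      (by rw [← hN]; exact hA) ha (by rw [← hN]; linarith) (by rw [← hN]; linarith) 7 le_rfl
    obtain ⟨b', g1, g2, g3, g4⟩ := steps_B hn1000 (by rw [← hN]; exact hB) hb
      (by rw [← hN]; linarith) 12
    rw [← hN] at g4
    push_cast at e3 e4 e5 g3 g4
    have k1 := (hy (T - a) (by linarith) (by linarith)).2
    have k2 := (hy (T - a') (by linarith) (by linarith)).1
    rw [sub_sub_cancel] at k1 k2
    have k3 : 130 * (T - a) / N ≤ 260 * z / N :=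
      div_le_div_of_nonneg_right (by linarith) hN0.le
    have k4 : 50 * z / N ≤ 50 * (T - a') / N :=
      div_le_div_of_nonneg_right (by linarith) hN0.le
    have k5 : 12 * (2 / N ^ 2) ≤ z / N := by
      rw [mul_div_assoc', div_le_div_iff₀ (by positivity) hN0]
      nlinarith [mul_le_mul_of_nonneg_right hz1 (by positivity : (0 : ℝ) ≤ N ^ 2)]
    have k6 : 50 * z / N = 49 * z / N + z / N := by ring
    exact ⟨a', e1, b', g1, e2, by linarith, by linarith, by linarith⟩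
  -- start
  obtain ⟨a0, ha0, ha1, ha2⟩ := hA0 x (by linarith) (by linarith)
  obtain ⟨b0, hb0, hb1, hb2⟩ := hB0 a0 (by linarith)
  by_contra hcon
  have h5 : 260 * z / N ≤ 13 / 10 := by
    rw [div_le_iff₀ hN0]; linarith
  have hgood : ∀ a ∈ A, ∀ b ∈ B, x ≤ a → a ≤ x + 7 * (N / z) → 0 < b - a →
      260 * z / N < b - a := by
    intro a ha b hb h1 h2 h3
    by_contra h4
    rw [not_lt] at h4
    exact hcon ⟨a, ha, b, hb, h1, h2, h3, h4, by linarith, by linarith⟩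
  have hind : ∀ i : ℕ, 42 * ((i : ℝ) + 1) + 12 ≤ 7 * (N / z) → ∃ a ∈ A, ∃ b ∈ B, x ≤ a ∧
      a ≤ x + 12 + 42 * i ∧ 0 < b - a ∧ b - a ≤ 7 - 49 * z / N * i := by
    intro i
    induction i with
    | zero => intro _; exact ⟨a0, ha0, b0, hb0, ha1.le, by simpa using ha2, by linarith, by simp; linarith⟩
    | succ i ih =>
      intro hi
      push_cast at hi
      obtain ⟨a, ha, b, hb, g1, g2, g3, g4⟩ := ih (by linarith)
      obtain ⟨a', ha', b', hb', e1, e2, e3, e4⟩ := hstep a ha b hb (by linarith) (by linarith)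
        (by linarith)
      have h5 := hgood a ha b hb g1 (by linarith) g3
      refine ⟨a', ha', b', hb', by linarith, by push_cast; linarith, by linarith, ?_⟩
      push_cast
      linarith
  have hq0 : 0 < N / (7 * z) := by positivity
  have hq : N / z = 7 * (N / (7 * z)) := by field_simp
  have hI : (⌈N / (7 * z)⌉₊ : ℝ) < N / (7 * z) + 1 := Nat.ceil_lt_add_one hq0.le
  have hI2 : N / (7 * z) ≤ (⌈N / (7 * z)⌉₊ : ℝ) := Nat.le_ceil _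
  obtain ⟨a, ha, b, hb, g1, g2, g3, g4⟩ := hind ⌈N / (7 * z)⌉₊ (by linarith)
  have h7 : 49 * z / N * (N / (7 * z)) ≤ 49 * z / N * (⌈N / (7 * z)⌉₊ : ℝ) :=
    mul_le_mul_of_nonneg_left hI2 (by positivity)
  have h8 : 49 * z / N * (N / (7 * z)) = 7 := by
    field_simp
    norm_num
  linarith

end Pool.Agent.H812.SO
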